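import Mathlib

set_option autoImplicit false

/-!
# Demazure crystals of type A that are not crystals of flagged skew tableaux

We show that the `gl_4` Demazure crystal attached to `lambda = (2,2,1)` and `w = s_3 s_2`
(five elements) is not isomorphic to the crystal of flagged skew tableaux of any skew shape with
any flag.
-/

namespace Pool.Agent.Results.MP_5741ae_al.NotFlagged

/-- A filling assigns a natural number to each cell (row, column); rows and columns are numbered
from `0`; the value `0` means that the cell is empty. -/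
abbrev Filling : Type := ℕ × ℕ → ℕ

/-- `c` is a cell of the skew shape `κ / μ`. -/
def InShape (κ μ : YoungDiagram) (c : ℕ × ℕ) : Prop := c ∈ κ ∧ c ∉ μ

/-- Semistandard tableaux of shape `κ / μ` with entries in `{1, ..., n}`. -/
structure IsTableau (n : ℕ) (κ μ : YoungDiagram) (T : Filling) : Prop where
  zero : ∀ c, ¬ InShape κ μ c → T c = 0
  pos : ∀ c, InShape κ μ c → 1 ≤ T c
  le : ∀ c, InShape κ μ c → T c ≤ n
  row : ∀ i j j', j < j' → InShape κ μ (i, j) → InShape κ μ (i, j') → T (i, j) ≤ T (i, j')
  col : ∀ i i' j, i < i' → InShape κ μ (i, j) → InShape κ μ (i', j) → T (i, j) < T (i', j)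

/-- Flagged skew tableaux: every entry of row `r` is at most `b r`. -/
def IsFlagged (n : ℕ) (κ μ : YoungDiagram) (b : ℕ → ℕ) (T : Filling) : Prop :=
  IsTableau n κ μ T ∧ ∀ c, InShape κ μ c → T c ≤ b c.1

/-- The cells of `κ / μ` in reading order: rows from bottom to top, each row from left to right. -/
def readingCells (κ μ : YoungDiagram) : List (ℕ × ℕ) :=
  (List.range (κ.colLen 0)).reverse.flatMap fun i =>
    ((List.range (κ.rowLen i)).filter fun j => decide ((i, j) ∉ μ)).map fun j => (i, j)

/-- Signature rule for `f_i`: each `i+1` is an opening bracket and each `i` a closing bracket.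
Scanning from left to right, `k` is the number of open brackets that are still unmatched and `best`
is the last unmatched `i` seen so far.  The result is the position of the rightmost unmatched
`i`. -/
def fScan (i : ℕ) (T : Filling) : List (ℕ × ℕ) → ℕ → Option (ℕ × ℕ) → Option (ℕ × ℕ)
  | [], _, best => best
  | c :: cs, k, best =>
    if T c = i + 1 then fScan i T cs (k + 1) best
    else if T c = i then
      (if k = 0 then fScan i T cs 0 (some c) else fScan i T cs (k - 1) best)
    else fScan i T cs k best

/-- Signature rule for `e_i`: scanning the reading word from right to left, `k` is the number of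
closing brackets `i` that are still unmatched and `best` is the last unmatched `i+1` seen so far.
The result is the position of the leftmost unmatched `i+1`. -/
def eScan (i : ℕ) (T : Filling) : List (ℕ × ℕ) → ℕ → Option (ℕ × ℕ) → Option (ℕ × ℕ)
  | [], _, best => best
  | c :: cs, k, best =>
    if T c = i then eScan i T cs (k + 1) best
    else if T c = i + 1 then
      (if k = 0 then eScan i T cs 0 (some c) else eScan i T cs (k - 1) best)
    else eScan i T cs k best

/-- The operator `f_i` on fillings of `κ / μ` (`none` stands for `0`). -/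
def rawF (κ μ : YoungDiagram) (i : ℕ) (T : Filling) : Option Filling :=
  (fScan i T (readingCells κ μ) 0 none).map fun c => Function.update T c (i + 1)

/-- The operator `e_i` on fillings of `κ / μ` (`none` stands for `0`). -/
def rawE (κ μ : YoungDiagram) (i : ℕ) (T : Filling) : Option Filling :=
  (eScan i T (readingCells κ μ).reverse 0 none).map fun c => Function.update T c i

/-- A set with operators `e_i`, `f_i`, `i ∈ I`; the value `none` stands for `0`. -/
structure OpSet (I : Type) where
  carrier : Type
  e : I → carrier → Option carrier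
  f : I → carrier → Option carrier

/-- Isomorphism: a bijection that commutes with all `e_i` and all `f_i` (sending `0` to `0`). -/
def IsIsomorphic {I : Type} (A B : OpSet I) : Prop :=
  ∃ φ : A.carrier ≃ B.carrier,
    (∀ i x, B.e i (φ x) = (A.e i x).map φ) ∧ (∀ i x, B.f i (φ x) = (A.f i x).map φ)

open Classical in
/-- Restriction of an operator on `X` to a subset `S`: the value is set to `0` whenever the result
is not in `S`. -/
noncomputable def restrictOp {X : Type} (S : Set X) (g : X → Option X) (x : S) : Option S :=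
  (g x).bind fun y => if h : y ∈ S then some ⟨y, h⟩ else none

/-- The operators of the tableau crystal of shape `κ / μ` restricted to a set `S` of fillings.  The
index `i : Fin m` stands for the colour `i + 1`, so the colours are `1, ..., m`. -/
noncomputable def opSetOn (m : ℕ) (κ μ : YoungDiagram) (S : Set Filling) : OpSet (Fin m) where
  carrier := S
  e := fun i => restrictOp S (rawE κ μ (i.val + 1))
  f := fun i => restrictOp S (rawF κ μ (i.val + 1))

/-- The `gl_{m+1}`-crystal of flagged skew tableaux. -/
noncomputable def flaggedCrystal (m : ℕ) (κ μ : YoungDiagram) (b : ℕ → ℕ) : OpSet (Fin m) :=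
  opSetOn m κ μ {T | IsFlagged (m + 1) κ μ b T}

open Classical in
/-- The operator `f_i` of the `gl_n` tableau crystal of the straight shape `lam`, as an operator
on fillings. -/
noncomputable def straightF (n : ℕ) (lam : YoungDiagram) (i : ℕ) (T : Filling) : Option Filling :=
  (rawF lam ⊥ i T).bind fun y => if IsTableau n lam ⊥ y then some y else none

/-- `D_i X = {f_i^k x : x ∈ X, k ≥ 0, f_i^k x ≠ 0}`. -/
def demazureOp (n : ℕ) (lam : YoungDiagram) (i : ℕ) (X : Set Filling) : Set Filling :=
  {y | ∃ x ∈ X, ∃ k : ℕ, (fun o => o.bind (straightF n lam i))^[k] (some x) = some y}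

/-- The highest weight tableau `u_lam`: all entries of the `r`-th row are `r` (rows numbered
from `1`). -/
def highest (lam : YoungDiagram) : Filling := fun c => if c ∈ lam then c.1 + 1 else 0

/-- The set `D_{i_1} ... D_{i_k} {u_lam}` for a word `i_1 ... i_k` (the entry `i : Fin m` of the
word stands for the colour `i + 1`). -/
def demazureSet (m : ℕ) (lam : YoungDiagram) (word : List (Fin m)) : Set Filling :=
  word.foldr (fun i X => demazureOp (m + 1) lam (i.val + 1) X) {highest lam}

/-- The Demazure crystal given by a word, with the restricted operators of the tableau crystal of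
shape `lam`. -/
noncomputable def demazureCrystal (m : ℕ) (lam : YoungDiagram) (word : List (Fin m)) :
    OpSet (Fin m) :=
  opSetOn m lam ⊥ (demazureSet m lam word)

/-- The product in `S_{m+1}` of the simple transpositions of a word; the letter `i : Fin m` stands
for the simple transposition `s_{i+1}`. -/
def wordProd {m : ℕ} (word : List (Fin m)) : Equiv.Perm (Fin (m + 1)) :=
  (word.map fun i => Equiv.swap i.castSucc i.succ).prod

/-- `word` is a reduced word of the permutation `w ∈ S_{m+1}`. -/
def IsReducedWord {m : ℕ} (w : Equiv.Perm (Fin (m + 1))) (word : List (Fin m)) : Prop :=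
  wordProd word = w ∧ ∀ word' : List (Fin m), wordProd word' = w → word.length ≤ word'.length

/-! ### Tools for skew tableaux -/

section Tools

variable {n : ℕ} {κ μ : YoungDiagram} {b : ℕ → ℕ}

lemma inShape_of_mem_readingCells {c : ℕ × ℕ} (h : c ∈ readingCells κ μ) : InShape κ μ c := by
  unfold readingCells at h
  simp only [List.mem_flatMap, List.mem_map, List.mem_filter, List.mem_range, List.mem_reverse,
    decide_eq_true_eq] at h
  obtain ⟨i, -, j, ⟨hj, hm⟩, rfl⟩ := h
  exact ⟨YoungDiagram.mem_iff_lt_rowLen.2 hj, hm⟩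

lemma fScan_spec (i : ℕ) (T : Filling) (l : List (ℕ × ℕ)) :
    ∀ (k : ℕ) (best : Option (ℕ × ℕ)) (c : ℕ × ℕ), fScan i T l k best = some c →
      best = some c ∨ (c ∈ l ∧ T c = i) := by
  induction l with
  | nil => intro k best c h; exact Or.inl h
  | cons a l ih =>
    intro k best c h
    unfold fScan at h
    split_ifs at h with h1 h2 h3
    · rcases ih _ _ _ h with h' | h'
      · exact Or.inl h'
      · exact Or.inr ⟨List.mem_cons_of_mem _ h'.1, h'.2⟩
    · rcases ih _ _ _ h with h' | h'
      · right
        obtain rfl : a = c := by simpa using h'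
        exact ⟨List.mem_cons_self, h2⟩
      · exact Or.inr ⟨List.mem_cons_of_mem _ h'.1, h'.2⟩
    · rcases ih _ _ _ h with h' | h'
      · exact Or.inl h'
      · exact Or.inr ⟨List.mem_cons_of_mem _ h'.1, h'.2⟩
    · rcases ih _ _ _ h with h' | h'
      · exact Or.inl h'
      · exact Or.inr ⟨List.mem_cons_of_mem _ h'.1, h'.2⟩

lemma rawF_spec {i : ℕ} {T T' : Filling} (h : rawF κ μ i T = some T') :
    ∃ c, InShape κ μ c ∧ T c = i ∧ T' = Function.update T c (i + 1) := by
  unfold rawF at h
  rw [Option.map_eq_some_iff] at h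
  obtain ⟨c, hc, rfl⟩ := h
  rcases fScan_spec i T _ _ _ _ hc with h' | h'
  · simp at h'
  · exact ⟨c, inShape_of_mem_readingCells h'.1, h'.2, rfl⟩

/-- Changing one entry of a flagged tableau. -/
lemma flagged_update {T : Filling} (hT : IsFlagged n κ μ b T) {c : ℕ × ℕ} (hc : InShape κ μ c)
    {v : ℕ} (h1 : 1 ≤ v) (hn : v ≤ n) (hb : v ≤ b c.1)
    (hl : ∀ j, j < c.2 → InShape κ μ (c.1, j) → T (c.1, j) ≤ v)
    (hr : ∀ j, c.2 < j → InShape κ μ (c.1, j) → v ≤ T (c.1, j))
    (ha : ∀ i, i < c.1 → InShape κ μ (i, c.2) → T (i, c.2) < v)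
    (hd : ∀ i, c.1 < i → InShape κ μ (i, c.2) → v < T (i, c.2)) :
    IsFlagged n κ μ b (Function.update T c v) := by
  obtain ⟨hT, hTb⟩ := hT
  refine ⟨⟨?_, ?_, ?_, ?_, ?_⟩, ?_⟩
  · intro d hd'
    have : d ≠ c := fun h => hd' (h ▸ hc)
    rw [Function.update_of_ne this]
    exact hT.zero d hd'
  · intro d hd'
    by_cases h : d = c
    · subst h; simpa using h1
    · rw [Function.update_of_ne h]; exact hT.pos d hd'
  · intro d hd'
    by_cases h : d = c
    · subst h; simpa using hn
    · rw [Function.update_of_ne h]; exact hT.le d hd'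
  · intro i j j' hj h2 h3
    by_cases h : (i, j) = c
    · subst h
      have hne : (i, j') ≠ (i, j) := by
        intro h; simp only [Prod.mk.injEq, true_and] at h; omega
      rw [Function.update_self, Function.update_of_ne hne]
      exact hr j' hj h3
    · rw [Function.update_of_ne h]
      by_cases h' : (i, j') = c
      · subst h'
        rw [Function.update_self]
        exact hl j hj h2
      · rw [Function.update_of_ne h']
        exact hT.row i j j' hj h2 h3
  · intro i i' j hi h2 h3
    by_cases h : (i, j) = c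
    · subst h
      have hne : (i', j) ≠ (i, j) := by
        intro h; simp only [Prod.mk.injEq, and_true] at h; omega
      rw [Function.update_self, Function.update_of_ne hne]
      exact hd i' hi h3
    · rw [Function.update_of_ne h]
      by_cases h' : (i', j) = c
      · subst h'
        rw [Function.update_self]
        exact ha i hi h2
      · rw [Function.update_of_ne h']
        exact hT.col i i' j hi h2 h3
  · intro d hd'
    by_cases h : d = c
    · subst h; simpa using hb
    · rw [Function.update_of_ne h]; exact hTb d hd'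

/-- The entrywise maximum of two flagged tableaux is a flagged tableau. -/
lemma flagged_max {T U : Filling} (hT : IsFlagged n κ μ b T) (hU : IsFlagged n κ μ b U) :
    IsFlagged n κ μ b (fun c => max (T c) (U c)) := by
  obtain ⟨hT, hTb⟩ := hT
  obtain ⟨hU, hUb⟩ := hU
  refine ⟨⟨?_, ?_, ?_, ?_, ?_⟩, ?_⟩
  · intro c hc; simp [hT.zero c hc, hU.zero c hc]
  · intro c hc; exact le_max_of_le_left (hT.pos c hc)
  · intro c hc; exact max_le (hT.le c hc) (hU.le c hc)
  · intro i j j' hj h1 h2; exact max_le_max (hT.row i j j' hj h1 h2) (hU.row i j j' hj h1 h2)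
  · intro i i' j hi h1 h2; exact max_lt_max (hT.col i i' j hi h1 h2) (hU.col i i' j hi h1 h2)
  · intro c hc; exact max_le (hTb c hc) (hUb c hc)

/-- The sum of all entries. -/
def total (κ : YoungDiagram) (T : Filling) : ℕ := ∑ c ∈ κ.cells, T c

lemma total_update {T : Filling} {c : ℕ × ℕ} (hc : InShape κ μ c) (v : ℕ) :
    total κ (Function.update T c v) + T c = total κ T + v := by
  have hc' : c ∈ κ.cells := hc.1
  unfold total
  rw [Finset.sum_update_of_mem hc', ← Finset.add_sum_erase κ.cells T hc',
    Finset.sdiff_singleton_eq_erase]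
  omega

end Tools

/-! ### The combinatorial core -/

/-- There are no flagged tableaux `T0, ..., T4` with the shape of the Demazure crystal. -/
theorem core {κ μ : YoungDiagram} {b : ℕ → ℕ} {T0 T1 T2 T3 T4 : Filling}
    (h0 : IsFlagged 4 κ μ b T0) (h1 : IsFlagged 4 κ μ b T1) (h2 : IsFlagged 4 κ μ b T2)
    (h4 : IsFlagged 4 κ μ b T4)
    (hall : ∀ T, IsFlagged 4 κ μ b T → T = T0 ∨ T = T1 ∨ T = T2 ∨ T = T3 ∨ T = T4)
    (h01 : rawF κ μ 2 T0 = some T1) (h02 : rawF κ μ 3 T0 = some T2)
    (h13 : rawF κ μ 3 T1 = some T3) (h34 : rawF κ μ 3 T3 = some T4) : False := by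
  obtain ⟨p, hp, hp0, hT1⟩ := rawF_spec h01
  obtain ⟨q, hq, hq0, hT2⟩ := rawF_spec h02
  obtain ⟨q', hq', hq'1, hT3⟩ := rawF_spec h13
  obtain ⟨r, hr, hr3, hT4⟩ := rawF_spec h34
  norm_num at hT1 hT2 hT3 hT4
  have hpq : p ≠ q := by rintro rfl; omega
  -- sums of entries
  have s1 : total κ T1 = total κ T0 + 1 := by
    have := total_update (T := T0) hp 3
    rw [← hT1] at this; omega
  have s2 : total κ T2 = total κ T0 + 1 := by
    have := total_update (T := T0) hq 4
    rw [← hT2] at this; omega
  have s3 : total κ T3 = total κ T0 + 2 := by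
    have := total_update (T := T1) hq' 4
    rw [← hT3] at this; omega
  have s4 : total κ T4 = total κ T0 + 3 := by
    have := total_update (T := T3) hr 4
    rw [← hT4] at this; omega
  -- the unique flagged tableau of second rank
  have key2 : ∀ T, IsFlagged 4 κ μ b T → total κ T = total κ T0 + 2 → T = T3 := by
    intro T hT hs
    rcases hall T hT with h | h | h | h | h
    · rw [h] at hs; omega
    · rw [h] at hs; omega
    · rw [h] at hs; omega
    · exact h
    · rw [h] at hs; omega
  have keylow : ∀ T, IsFlagged 4 κ μ b T → total κ T0 ≤ total κ T := by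
    intro T hT
    rcases hall T hT with h | h | h | h | h <;> rw [h] <;> omega
  -- the join of `T1` and `T2`
  have hT1p : T1 p = 3 := by rw [hT1]; simp
  have hT1n : ∀ c, c ≠ p → T1 c = T0 c := by
    intro c hc; rw [hT1]; exact Function.update_of_ne hc _ _
  have hT2q : T2 q = 4 := by rw [hT2]; simp
  have hT2n : ∀ c, c ≠ q → T2 c = T0 c := by
    intro c hc; rw [hT2]; exact Function.update_of_ne hc _ _
  have hJ : (fun c => max (T1 c) (T2 c)) = Function.update T1 q 4 := by
    funext c
    by_cases hcq : c = q
    · subst hcq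
      rw [Function.update_self, hT2q, hT1n c (Ne.symm hpq), hq0]; rfl
    · rw [Function.update_of_ne hcq, hT2n c hcq]
      by_cases hcp : c = p
      · subst hcp; rw [hT1p, hp0]; rfl
      · rw [hT1n c hcp, max_self]
  have hT3' : T3 = Function.update T1 q 4 := by
    rw [← hJ]
    refine (key2 _ (flagged_max h1 h2) ?_).symm
    rw [hJ]
    have := total_update (T := T1) hq 4
    rw [hT1n q (Ne.symm hpq)] at this
    omega
  have hT3p : T3 p = 3 := by rw [hT3', Function.update_of_ne hpq, hT1p]
  have hT3q : T3 q = 4 := by rw [hT3', Function.update_self]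
  have hT3n : ∀ c, c ≠ p → c ≠ q → T3 c = T0 c := by
    intro c hcp hcq
    rw [hT3', Function.update_of_ne hcq, hT1n c hcp]
  have hrq : r ≠ q := by rintro rfl; omega
  have hT4r : T4 r = 4 := by rw [hT4, Function.update_self]
  have hT4n : ∀ c, c ≠ r → T4 c = T3 c := by
    intro c hc; rw [hT4]; exact Function.update_of_ne hc _ _
  have hT4q : T4 q = 4 := by rw [hT4n q (Ne.symm hrq), hT3q]
  -- `r = p`
  have hrp : r = p := by
    by_contra hrp
    have hr0 : T0 r = 3 := by rw [← hT3n r hrp hrq]; exact hr3
    have hT4p : T4 p = 3 := by rw [hT4n p (Ne.symm hrp), hT3p]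
    have hW : IsFlagged 4 κ μ b (Function.update T4 p 2) := by
      refine flagged_update h4 hp (by norm_num) (by norm_num) ?_ ?_ ?_ ?_ ?_
      · have := h0.2 p hp; omega
      · intro j hj hs
        have hle := h0.1.row p.1 j p.2 hj hs hp
        have e : ((p.1, p.2) : ℕ × ℕ) = p := rfl
        rw [e, hp0] at hle
        have n1 : (p.1, j) ≠ r := by rintro h; rw [h] at hle; omega
        have n2 : (p.1, j) ≠ q := by rintro h; rw [h] at hle; omega
        have n3 : (p.1, j) ≠ p := by
          intro h; have := congrArg Prod.snd h; simp at this; omega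
        rw [hT4n _ n1, hT3n _ n3 n2]; exact hle
      · intro j hj hs
        have hle := h4.1.row p.1 p.2 j hj hp hs
        have e : ((p.1, p.2) : ℕ × ℕ) = p := rfl
        rw [e, hT4p] at hle; omega
      · intro i hi hs
        have hlt := h0.1.col i p.1 p.2 hi hs hp
        have e : ((p.1, p.2) : ℕ × ℕ) = p := rfl
        rw [e, hp0] at hlt
        have n1 : (i, p.2) ≠ r := by rintro h; rw [h] at hlt; omega
        have n2 : (i, p.2) ≠ q := by rintro h; rw [h] at hlt; omega
        have n3 : (i, p.2) ≠ p := by
          intro h; have := congrArg Prod.fst h; simp at this; omega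
        rw [hT4n _ n1, hT3n _ n3 n2]; exact hlt
      · intro i hi hs
        have hlt := h4.1.col p.1 i p.2 hi hp hs
        have e : ((p.1, p.2) : ℕ × ℕ) = p := rfl
        rw [e, hT4p] at hlt; omega
    have hs : total κ (Function.update T4 p 2) = total κ T0 + 2 := by
      have := total_update (T := T4) hp 2
      omega
    have := congrFun (key2 _ hW hs) p
    rw [Function.update_self, hT3p] at this
    omega
  subst hrp
  -- now `r` plays the role of `p`
  have hT4n' : ∀ c, c ≠ r → c ≠ q → T4 c = T0 c := by
    intro c h h'; rw [hT4n c h, hT3n c h h']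
  have er : ((r.1, r.2) : ℕ × ℕ) = r := rfl
  have eq' : ((q.1, q.2) : ℕ × ℕ) = q := rfl
  -- `r` is to the left of `q` in the same row
  have hrow : ∃ j, j < q.2 ∧ (q.1, j) = r := by
    by_contra hno
    push Not at hno
    have hW : IsFlagged 4 κ μ b (Function.update T4 q 3) := by
      refine flagged_update h4 hq (by norm_num) (by norm_num) ?_ ?_ ?_ ?_ ?_
      · have := h0.2 q hq; omega
      · intro j hj hs
        have hle := h0.1.row q.1 j q.2 hj hs hq
        rw [eq', hq0] at hle
        have n2 : (q.1, j) ≠ q := by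
          intro h; have := congrArg Prod.snd h; simp at this; omega
        rw [hT4n' _ (hno j hj) n2]; exact hle
      · intro j hj hs
        have hle := h4.1.row q.1 q.2 j hj hq hs
        rw [eq', hT4q] at hle; omega
      · intro i hi hs
        have hlt := h0.1.col i q.1 q.2 hi hs hq
        rw [eq', hq0] at hlt
        have n2 : (i, q.2) ≠ q := by
          intro h; have := congrArg Prod.fst h; simp at this; omega
        have n1 : (i, q.2) ≠ r := by
          intro h
          have hlt' := h4.1.col i q.1 q.2 hi hs hq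
          rw [eq', h, hT4r, hT4q] at hlt'
          omega
        rw [hT4n' _ n1 n2]; exact hlt
      · intro i hi hs
        have hlt := h4.1.col q.1 i q.2 hi hq hs
        rw [eq', hT4q] at hlt; omega
    have hs : total κ (Function.update T4 q 3) = total κ T0 + 2 := by
      have := total_update (T := T4) hq 3
      omega
    have := congrFun (key2 _ hW hs) r
    rw [Function.update_of_ne hpq, hT4r, hT3p] at this
    omega
  obtain ⟨jr, hjr, hrr⟩ := hrow
  -- no cell strictly between `r` and `q`
  have hbet : ∀ j, jr < j → j < q.2 → ¬ InShape κ μ (q.1, j) := by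
    intro j hj1 hj2 hs
    have a1 := h4.1.row q.1 jr j hj1 (by rw [hrr]; exact hp) hs
    have a2 := h0.1.row q.1 j q.2 hj2 hs hq
    rw [eq', hq0] at a2
    rw [hrr, hT4r] at a1
    have n1 : (q.1, j) ≠ r := by
      rw [← hrr]; intro h; have := congrArg Prod.snd h; simp at this; omega
    have n2 : (q.1, j) ≠ q := by
      intro h; have := congrArg Prod.snd h; simp at this; omega
    rw [hT4n' _ n1 n2] at a1
    omega
  -- the cell above `q`
  have habove : ∃ i, i < q.1 ∧ InShape κ μ (i, q.2) ∧ 2 ≤ T0 (i, q.2) := by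
    by_contra hno
    push Not at hno
    have hW : IsFlagged 4 κ μ b (Function.update T0 q 2) := by
      refine flagged_update h0 hq (by norm_num) (by norm_num) ?_ ?_ ?_ ?_ ?_
      · have := h0.2 q hq; omega
      · intro j hj hs
        rcases lt_trichotomy j jr with h | h | h
        · have hle := h0.1.row q.1 j jr h hs (by rw [hrr]; exact hp)
          rw [hrr, hp0] at hle; exact hle
        · subst h; rw [hrr, hp0]
        · exact absurd hs (hbet j h hj)
      · intro j hj hs
        have hle := h0.1.row q.1 q.2 j hj hq hs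
        rw [eq', hq0] at hle; omega
      · intro i hi hs
        exact hno i hi hs
      · intro i hi hs
        have hlt := h0.1.col q.1 i q.2 hi hq hs
        rw [eq', hq0] at hlt; omega
    have hs := total_update (T := T0) hq 2
    have := keylow _ hW
    omega
  obtain ⟨id, hid, hds, hd2⟩ := habove
  have hd : T0 (id, q.2) = 2 := by
    have := h0.1.col id q.1 q.2 hid hds hq
    rw [eq', hq0] at this; omega
  -- no cell strictly between `d = (id, q.2)` and `q`
  have hbetc : ∀ i, id < i → i < q.1 → ¬ InShape κ μ (i, q.2) := by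
    intro i hi1 hi2 hs
    have a1 := h0.1.col id i q.2 hi1 hds hs
    have a2 := h0.1.col i q.1 q.2 hi2 hs hq
    rw [eq', hq0] at a2
    omega
  by_cases hcμ : (id, jr) ∈ μ
  · -- the row of `r` has no cells above its left part: lower the leftmost entry `2`
    have hex : ∃ j, InShape κ μ (q.1, j) ∧ T0 (q.1, j) = 2 := ⟨jr, by rw [hrr]; exact ⟨hp, hp0⟩⟩
    classical
    let j0 := Nat.find hex
    have hj0 : InShape κ μ (q.1, j0) ∧ T0 (q.1, j0) = 2 := Nat.find_spec hex
    have hmin : ∀ j, j < j0 → ¬ (InShape κ μ (q.1, j) ∧ T0 (q.1, j) = 2) :=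
      fun j hj => Nat.find_min hex hj
    have hj0r : j0 ≤ jr := Nat.find_min' hex (by rw [hrr]; exact ⟨hp, hp0⟩)
    have hnoabove : ∀ i, i < q.1 → ¬ InShape κ μ (i, j0) := by
      intro i hi hs
      have hidi : id < i := by
        by_contra hle
        exact hs.2 (μ.up_left_mem (not_lt.1 hle) hj0r hcμ)
      refine hbetc i hidi hi ⟨?_, ?_⟩
      · exact κ.up_left_mem hi.le le_rfl hq.1
      · intro hmem
        exact hs.2 (μ.up_left_mem le_rfl (by omega) hmem)
    have hW : IsFlagged 4 κ μ b (Function.update T0 (q.1, j0) 1) := by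
      refine flagged_update h0 hj0.1 (by norm_num) (by norm_num) ?_ ?_ ?_ ?_ ?_
      · have := h0.2 _ hj0.1; rw [hj0.2] at this; omega
      · intro j hj hs
        have hle := h0.1.row q.1 j j0 hj hs hj0.1
        rw [hj0.2] at hle
        have : T0 (q.1, j) ≠ 2 := fun h => hmin j hj ⟨hs, h⟩
        simp only
        omega
      · intro j hj hs
        exact h0.1.pos _ hs
      · intro i hi hs
        exact absurd hs (hnoabove i hi)
      · intro i hi hs
        have hlt := h0.1.col q.1 i j0 hi hj0.1 hs
        rw [hj0.2] at hlt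
        simp only
        omega
    have hs := total_update (T := T0) hj0.1 1
    rw [hj0.2] at hs
    have := keylow _ hW
    omega
  · -- the cell `c = (id, jr)` has entry `1` and can be raised to `2` in `T1`
    have hcs : InShape κ μ (id, jr) := ⟨κ.up_left_mem le_rfl hjr.le hds.1, hcμ⟩
    have hr' : InShape κ μ (q.1, jr) := by rw [hrr]; exact hp
    have hr0' : T0 (q.1, jr) = 2 := by rw [hrr]; exact hp0
    have hc1 : T0 (id, jr) = 1 := by
      have a1 := h0.1.col id q.1 jr hid hcs hr'
      have a2 := h0.1.pos _ hcs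
      omega
    have hrow_ne : ∀ j, (id, j) ≠ r := by
      intro j h; rw [← hrr] at h; have := congrArg Prod.fst h; simp at this; omega
    have hW : IsFlagged 4 κ μ b (Function.update T1 (id, jr) 2) := by
      refine flagged_update h1 hcs (by norm_num) (by norm_num) ?_ ?_ ?_ ?_ ?_
      · have := h0.2 _ hds; rw [hd] at this; exact this
      · intro j hj hs
        have hle := h0.1.row id j jr hj hs hcs
        simp only
        rw [hT1n _ (hrow_ne j)]
        omega
      · intro j hj hs
        simp only at hj hs ⊢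
        rw [hT1n _ (hrow_ne j)]
        rcases lt_trichotomy j q.2 with h | h | h
        · exfalso
          refine hbet j hj h ⟨?_, ?_⟩
          · exact κ.up_left_mem le_rfl h.le hq.1
          · intro hmem
            exact hr'.2 (μ.up_left_mem le_rfl hj.le hmem)
        · subst h; omega
        · have := h0.1.row id q.2 j h hds hs
          omega
      · intro i hi hs
        simp only at hi hs ⊢
        exfalso
        have a1 := h0.1.col i id jr hi hs hcs
        have a2 := h0.1.pos _ hs
        omega
      · intro i hi hs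
        simp only at hi hs ⊢
        rcases lt_trichotomy i q.1 with h | h | h
        · exfalso
          have a1 := h0.1.col id i jr hi hcs hs
          have a2 := h0.1.col i q.1 jr h hs hr'
          omega
        · subst h; rw [hrr, hT1p]; omega
        · have a1 := h0.1.col q.1 i jr h hr' hs
          have n1 : (i, jr) ≠ r := by
            rw [← hrr]; intro h'; have := congrArg Prod.fst h'; simp at this; omega
          rw [hT1n _ n1]
          omega
    have hs : total κ (Function.update T1 (id, jr) 2) = total κ T0 + 2 := by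
      have := total_update (T := T1) hcs 2
      rw [hT1n _ (hrow_ne jr)] at this
      omega
    have h5 := congrFun (key2 _ hW hs) (id, jr)
    rw [Function.update_self, hT3n _ (hrow_ne jr) ?_] at h5
    · omega
    · intro h; have := congrArg Prod.snd h; simp at this; omega

/-! ### The Demazure crystal of `lambda = (2,2,1)` and `w = s_3 s_2` -/

section Example

/-- The partition `(2,2,1)`. -/
def lam : YoungDiagram := YoungDiagram.ofRowLens [2, 2, 1] (by decide)

lemma mem_lam (i j : ℕ) : (i, j) ∈ lam ↔
    (i, j) = (0, 0) ∨ (i, j) = (0, 1) ∨ (i, j) = (1, 0) ∨ (i, j) = (1, 1) ∨ (i, j) = (2, 0) := by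
  unfold lam
  rw [YoungDiagram.mem_ofRowLens]
  simp only [List.length_cons, List.length_nil, Prod.mk.injEq]
  constructor
  · rintro ⟨h, h'⟩
    have hi : i = 0 ∨ i = 1 ∨ i = 2 := by omega
    rcases hi with rfl | rfl | rfl <;> simp at h' <;> omega
  · rintro (⟨rfl, rfl⟩ | ⟨rfl, rfl⟩ | ⟨rfl, rfl⟩ | ⟨rfl, rfl⟩ | ⟨rfl, rfl⟩) <;>
      exact ⟨by omega, by simp⟩

lemma inShape_lam (c : ℕ × ℕ) : InShape lam ⊥ c ↔
    c = (0, 0) ∨ c = (0, 1) ∨ c = (1, 0) ∨ c = (1, 1) ∨ c = (2, 0) := by
  obtain ⟨i, j⟩ := c
  unfold InShape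
  rw [mem_lam]
  simp

lemma colLen_lam : lam.colLen 0 = 3 := by
  have h1 : 2 < lam.colLen 0 := YoungDiagram.mem_iff_lt_colLen.1 ((mem_lam 2 0).2 (by simp))
  have h2 : ¬ 3 < lam.colLen 0 := fun h => by
    have := YoungDiagram.mem_iff_lt_colLen.2 h
    rw [mem_lam] at this; simp at this
  omega

lemma rowLen_lam0 : lam.rowLen 0 = 2 := by
  have h1 : 1 < lam.rowLen 0 := YoungDiagram.mem_iff_lt_rowLen.1 ((mem_lam 0 1).2 (by simp))
  have h2 : ¬ 2 < lam.rowLen 0 := fun h => by
    have := YoungDiagram.mem_iff_lt_rowLen.2 h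
    rw [mem_lam] at this; simp at this
  omega

lemma rowLen_lam1 : lam.rowLen 1 = 2 := by
  have h1 : 1 < lam.rowLen 1 := YoungDiagram.mem_iff_lt_rowLen.1 ((mem_lam 1 1).2 (by simp))
  have h2 : ¬ 2 < lam.rowLen 1 := fun h => by
    have := YoungDiagram.mem_iff_lt_rowLen.2 h
    rw [mem_lam] at this; simp at this
  omega

lemma rowLen_lam2 : lam.rowLen 2 = 1 := by
  have h1 : 0 < lam.rowLen 2 := YoungDiagram.mem_iff_lt_rowLen.1 ((mem_lam 2 0).2 (by simp))
  have h2 : ¬ 1 < lam.rowLen 2 := fun h => by
    have := YoungDiagram.mem_iff_lt_rowLen.2 h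
    rw [mem_lam] at this; simp at this
  omega

lemma readingCells_lam :
    readingCells lam ⊥ = [(2, 0), (1, 0), (1, 1), (0, 0), (0, 1)] := by
  unfold readingCells
  rw [colLen_lam]
  have h3 : (List.range 3).reverse = [2, 1, 0] := by decide
  rw [h3]
  simp only [List.flatMap_cons, List.flatMap_nil, rowLen_lam0, rowLen_lam1, rowLen_lam2,
    YoungDiagram.notMem_bot, not_false_eq_true, decide_true, List.filter_true]
  decide

lemma tab_of_values {T : Filling} (hz : ∀ c, ¬ InShape lam ⊥ c → T c = 0)
    (h00 : T (0, 0) = 1) (h01 : T (0, 1) = 1) (h10 : T (1, 0) = 2)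
    (h11 : 2 ≤ T (1, 1)) (h11' : T (1, 1) ≤ 4) (h20 : 3 ≤ T (2, 0)) (h20' : T (2, 0) ≤ 4) :
    IsTableau 4 lam ⊥ T := by
  refine ⟨hz, ?_, ?_, ?_, ?_⟩
  · intro c hc
    rw [inShape_lam] at hc
    rcases hc with rfl | rfl | rfl | rfl | rfl <;> omega
  · intro c hc
    rw [inShape_lam] at hc
    rcases hc with rfl | rfl | rfl | rfl | rfl <;> omega
  · intro i j j' hj h1 h2
    rw [inShape_lam] at h1 h2
    simp only [Prod.mk.injEq] at h1 h2
    rcases h1 with ⟨rfl, rfl⟩ | ⟨rfl, rfl⟩ | ⟨rfl, rfl⟩ | ⟨rfl, rfl⟩ | ⟨rfl, rfl⟩ <;>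
      rcases h2 with ⟨h, rfl⟩ | ⟨h, rfl⟩ | ⟨h, rfl⟩ | ⟨h, rfl⟩ | ⟨h, rfl⟩ <;> omega
  · intro i i' j hi h1 h2
    rw [inShape_lam] at h1 h2
    simp only [Prod.mk.injEq] at h1 h2
    rcases h1 with ⟨rfl, rfl⟩ | ⟨rfl, rfl⟩ | ⟨rfl, rfl⟩ | ⟨rfl, rfl⟩ | ⟨rfl, rfl⟩ <;>
      rcases h2 with ⟨rfl, h⟩ | ⟨rfl, h⟩ | ⟨rfl, h⟩ | ⟨rfl, h⟩ | ⟨rfl, h⟩ <;> omega

/-- The five tableaux: first and second row start `1 1 / 2`; the other two entries are `a` (end of
the second row) and `c` (third row). -/
def tab (a c : ℕ) : Filling := Function.update (Function.update (highest lam) (1, 1) a) (2, 0) c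

lemma tab_zero (a c : ℕ) : ∀ d, ¬ InShape lam ⊥ d → tab a c d = 0 := by
  intro d hd
  have hd' := hd
  rw [inShape_lam] at hd'
  simp only [not_or] at hd'
  unfold tab
  rw [Function.update_of_ne hd'.2.2.2.2, Function.update_of_ne hd'.2.2.2.1]
  unfold highest
  rw [if_neg]
  intro hmem
  exact hd ⟨hmem, YoungDiagram.notMem_bot d⟩

lemma tab_00 (a c : ℕ) : tab a c (0, 0) = 1 := by
  have : ((0, 0) : ℕ × ℕ) ∈ lam := (mem_lam 0 0).2 (by simp)
  simp [tab, highest, this, Function.update]

lemma tab_01 (a c : ℕ) : tab a c (0, 1) = 1 := by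
  have : ((0, 1) : ℕ × ℕ) ∈ lam := (mem_lam 0 1).2 (by simp)
  simp [tab, highest, this, Function.update]

lemma tab_10 (a c : ℕ) : tab a c (1, 0) = 2 := by
  have : ((1, 0) : ℕ × ℕ) ∈ lam := (mem_lam 1 0).2 (by simp)
  simp [tab, highest, this, Function.update]

lemma tab_11 (a c : ℕ) : tab a c (1, 1) = a := by
  simp [tab, Function.update]

lemma tab_20 (a c : ℕ) : tab a c (2, 0) = c := by
  simp [tab]

lemma highest_eq : highest lam = tab 2 3 := by
  unfold tab
  have h1 : ((1, 1) : ℕ × ℕ) ∈ lam := (mem_lam 1 1).2 (by simp)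
  have h2 : ((2, 0) : ℕ × ℕ) ∈ lam := (mem_lam 2 0).2 (by simp)
  have e1 : highest lam (1, 1) = 2 := by simp [highest, h1]
  have e2 : highest lam (2, 0) = 3 := by simp [highest, h2]
  have e3 : Function.update (highest lam) (1, 1) 2 = highest lam := by
    conv_rhs => rw [← Function.update_eq_self (1, 1) (highest lam)]
    rw [e1]
  have e4 : Function.update (highest lam) (2, 0) 3 = highest lam := by
    conv_rhs => rw [← Function.update_eq_self (2, 0) (highest lam)]
    rw [e2]
  rw [e3, e4]

lemma tab_update_11 (a c v : ℕ) : Function.update (tab a c) (1, 1) v = tab v c := by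
  unfold tab
  rw [Function.update_comm (by decide), Function.update_idem]

lemma tab_update_20 (a c v : ℕ) : Function.update (tab a c) (2, 0) v = tab a v := by
  unfold tab
  rw [Function.update_idem]

lemma isTableau_tab {a c : ℕ} (h1 : 2 ≤ a) (h2 : a ≤ 4) (h3 : 3 ≤ c) (h4 : c ≤ 4) :
    IsTableau 4 lam ⊥ (tab a c) :=
  tab_of_values (tab_zero a c) (tab_00 a c) (tab_01 a c) (tab_10 a c)
    (by rw [tab_11]; exact h1) (by rw [tab_11]; exact h2) (by rw [tab_20]; exact h3)
    (by rw [tab_20]; exact h4)

lemma rawF2_23 : rawF lam ⊥ 2 (tab 2 3) = some (tab 3 3) := by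
  unfold rawF
  rw [readingCells_lam]
  simp [fScan, tab_00, tab_01, tab_10, tab_11, tab_20, tab_update_11]

lemma rawF2_33 : rawF lam ⊥ 2 (tab 3 3) = none := by
  unfold rawF
  rw [readingCells_lam]
  simp [fScan, tab_00, tab_01, tab_10, tab_11, tab_20]

lemma rawF3_23 : rawF lam ⊥ 3 (tab 2 3) = some (tab 2 4) := by
  unfold rawF
  rw [readingCells_lam]
  simp [fScan, tab_00, tab_01, tab_10, tab_11, tab_20, tab_update_20]

lemma rawF3_24 : rawF lam ⊥ 3 (tab 2 4) = none := by
  unfold rawF
  rw [readingCells_lam]
  simp [fScan, tab_00, tab_01, tab_10, tab_11, tab_20]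

lemma rawF3_33 : rawF lam ⊥ 3 (tab 3 3) = some (tab 4 3) := by
  unfold rawF
  rw [readingCells_lam]
  simp [fScan, tab_00, tab_01, tab_10, tab_11, tab_20, tab_update_11]

lemma rawF3_43 : rawF lam ⊥ 3 (tab 4 3) = some (tab 4 4) := by
  unfold rawF
  rw [readingCells_lam]
  simp [fScan, tab_00, tab_01, tab_10, tab_11, tab_20, tab_update_20]

lemma rawF3_44 : rawF lam ⊥ 3 (tab 4 4) = none := by
  unfold rawF
  rw [readingCells_lam]
  simp [fScan, tab_00, tab_01, tab_10, tab_11, tab_20]

lemma straightF_of_some {i : ℕ} {T T' : Filling} (h : rawF lam ⊥ i T = some T')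
    (h' : IsTableau 4 lam ⊥ T') : straightF 4 lam i T = some T' := by
  unfold straightF
  rw [h]
  simp [h']

lemma straightF_of_none {i : ℕ} {T : Filling} (h : rawF lam ⊥ i T = none) :
    straightF 4 lam i T = none := by
  unfold straightF
  rw [h]
  simp

lemma iterate_closed {g : Filling → Option Filling} {C : Set Filling}
    (hC : ∀ x ∈ C, ∀ y, g x = some y → y ∈ C) :
    ∀ (k : ℕ) (x y : Filling), x ∈ C → (fun o => o.bind g)^[k] (some x) = some y → y ∈ C := by
  intro k
  induction k with
  | zero => intro x y hx h; simp at h; exact h ▸ hx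
  | succ k ih =>
    intro x y hx h
    rw [Function.iterate_succ_apply'] at h
    cases hk : (fun o : Option Filling => o.bind g)^[k] (some x) with
    | none => rw [hk] at h; simp at h
    | some z =>
      rw [hk] at h
      exact hC z (ih x z hx hk) y h

lemma demazure_mem_cases {T : Filling} (hT : T ∈ demazureSet 3 lam [2, 1]) :
    T = tab 2 3 ∨ T = tab 3 3 ∨ T = tab 2 4 ∨ T = tab 4 3 ∨ T = tab 4 4 := by
  unfold demazureSet at hT
  simp only [List.foldr_cons, List.foldr_nil] at hT
  obtain ⟨x, hx, k, hk⟩ := hT
  have hx' : x ∈ ({tab 2 3, tab 3 3} : Set Filling) := by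
    obtain ⟨z, hz, l, hl⟩ := hx
    rw [Set.mem_singleton_iff, highest_eq] at hz
    subst hz
    refine iterate_closed (g := straightF 4 lam 2) (C := {tab 2 3, tab 3 3}) ?_ l _ _
      (Set.mem_insert _ _) hl
    rintro a (rfl | rfl) b hb
    · rw [straightF_of_some rawF2_23 (isTableau_tab (by norm_num) (by norm_num) (by norm_num)
        (by norm_num))] at hb
      right; simpa using hb.symm
    · rw [straightF_of_none rawF2_33] at hb
      exact absurd hb (by simp)
  have := iterate_closed (g := straightF 4 lam 3)
    (C := {tab 2 3, tab 3 3, tab 2 4, tab 4 3, tab 4 4}) ?_ k x T ?_ hk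
  · simpa using this
  · rintro a (rfl | rfl | rfl | rfl | rfl) b hb
    · rw [straightF_of_some rawF3_23 (isTableau_tab (by norm_num) (by norm_num) (by norm_num)
        (by norm_num))] at hb
      obtain rfl : tab 2 4 = b := by simpa using hb
      simp
    · rw [straightF_of_some rawF3_33 (isTableau_tab (by norm_num) (by norm_num) (by norm_num)
        (by norm_num))] at hb
      obtain rfl : tab 4 3 = b := by simpa using hb
      simp
    · rw [straightF_of_none rawF3_24] at hb
      exact absurd hb (by simp)
    · rw [straightF_of_some rawF3_43 (isTableau_tab (by norm_num) (by norm_num) (by norm_num)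
        (by norm_num))] at hb
      obtain rfl : tab 4 4 = b := by simpa using hb
      simp
    · rw [straightF_of_none rawF3_44] at hb
      exact absurd hb (by simp)
  · rcases hx' with rfl | rfl <;> simp

lemma mem_demazureOp_self {i : ℕ} {X : Set Filling} {x : Filling} (hx : x ∈ X) :
    x ∈ demazureOp 4 lam i X := ⟨x, hx, 0, rfl⟩

lemma mem_demazureOp_step {i : ℕ} {X : Set Filling} {x y : Filling}
    (hx : x ∈ demazureOp 4 lam i X) (h : straightF 4 lam i x = some y) :
    y ∈ demazureOp 4 lam i X := by
  obtain ⟨z, hz, k, hk⟩ := hx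
  refine ⟨z, hz, k + 1, ?_⟩
  rw [Function.iterate_succ_apply', hk]
  exact h

lemma mem23 : tab 2 3 ∈ demazureSet 3 lam [2, 1] := by
  refine mem_demazureOp_self (mem_demazureOp_self ?_)
  rw [← highest_eq]; exact Set.mem_singleton _

lemma mem33 : tab 3 3 ∈ demazureSet 3 lam [2, 1] := by
  refine mem_demazureOp_self ?_
  refine mem_demazureOp_step (x := tab 2 3) (mem_demazureOp_self ?_)
    (straightF_of_some rawF2_23 (isTableau_tab (by norm_num) (by norm_num) (by norm_num)
        (by norm_num)))
  rw [← highest_eq]; exact Set.mem_singleton _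

lemma mem24 : tab 2 4 ∈ demazureSet 3 lam [2, 1] :=
  mem_demazureOp_step mem23 (straightF_of_some rawF3_23 (isTableau_tab (by norm_num) (by norm_num)
    (by norm_num) (by norm_num)))

lemma mem43 : tab 4 3 ∈ demazureSet 3 lam [2, 1] :=
  mem_demazureOp_step mem33 (straightF_of_some rawF3_33 (isTableau_tab (by norm_num) (by norm_num)
    (by norm_num) (by norm_num)))

lemma mem44 : tab 4 4 ∈ demazureSet 3 lam [2, 1] :=
  mem_demazureOp_step mem43 (straightF_of_some rawF3_43 (isTableau_tab (by norm_num) (by norm_num)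
    (by norm_num) (by norm_num)))

lemma restrictOp_some {X : Type} {S : Set X} {g : X → Option X} {x y : S}
    (h : g x = some y.1) : restrictOp S g x = some y := by
  unfold restrictOp
  rw [h]
  simp

lemma of_restrictOp_some {X : Type} {S : Set X} {g : X → Option X} {x y : S}
    (h : restrictOp S g x = some y) : g x = some y.1 := by
  unfold restrictOp at h
  cases hg : g x with
  | none => rw [hg] at h; simp at h
  | some z =>
    rw [hg] at h
    simp only [Option.bind_some] at h
    split_ifs at h with hz
    have := Option.some.inj h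
    rw [← this]

/-- The Demazure crystal of `(2,2,1)` and `s_3 s_2` is not isomorphic to a crystal of flagged skew
tableaux, for any skew shape and any flag. -/
theorem not_iso (κ μ : YoungDiagram) (b : ℕ → ℕ) :
    ¬ IsIsomorphic (demazureCrystal 3 lam [2, 1]) (flaggedCrystal 3 κ μ b) := by
  rintro ⟨φ, -, hf⟩
  have step : ∀ (i : Fin 3) (x y : demazureSet 3 lam [2, 1]),
      rawF lam ⊥ (i.val + 1) x.1 = some y.1 →
      rawF κ μ (i.val + 1) (φ x).1 = some (φ y).1 := by
    intro i x y h
    have h1 : (demazureCrystal 3 lam [2, 1]).f i x = some y := restrictOp_some h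
    have h2 := hf i x
    rw [h1] at h2
    exact of_restrictOp_some h2
  let a0 : demazureSet 3 lam [2, 1] := ⟨tab 2 3, mem23⟩
  let a1 : demazureSet 3 lam [2, 1] := ⟨tab 3 3, mem33⟩
  let a2 : demazureSet 3 lam [2, 1] := ⟨tab 2 4, mem24⟩
  let a3 : demazureSet 3 lam [2, 1] := ⟨tab 4 3, mem43⟩
  let a4 : demazureSet 3 lam [2, 1] := ⟨tab 4 4, mem44⟩
  refine core (κ := κ) (μ := μ) (b := b) (T0 := (φ a0).1) (T1 := (φ a1).1) (T2 := (φ a2).1)
    (T3 := (φ a3).1) (T4 := (φ a4).1) (φ a0).2 (φ a1).2 (φ a2).2 (φ a4).2 ?_
    (step 1 a0 a1 rawF2_23) (step 2 a0 a2 rawF3_23) (step 2 a1 a3 rawF3_33)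
    (step 2 a3 a4 rawF3_43)
  intro T hT
  obtain ⟨a, ha⟩ := φ.surjective ⟨T, hT⟩
  have hTa : T = (φ a).1 := by rw [ha]
  have hcases := demazure_mem_cases a.2
  rcases hcases with h | h | h | h | h
  · left; rw [hTa, show a = a0 from Subtype.ext h]
  · right; left; rw [hTa, show a = a1 from Subtype.ext h]
  · right; right; left; rw [hTa, show a = a2 from Subtype.ext h]
  · right; right; right; left; rw [hTa, show a = a3 from Subtype.ext h]
  · right; right; right; right; rw [hTa, show a = a4 from Subtype.ext h]

lemma reduced_unique (word : List (Fin 3))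
    (h : IsReducedWord (wordProd ([2, 1] : List (Fin 3))) word) : word = [2, 1] := by
  obtain ⟨h1, h2⟩ := h
  have hlen : word.length ≤ 2 := h2 [2, 1] rfl
  clear h2
  have c1 : ∀ a : Fin 3, wordProd ([a] : List (Fin 3)) ≠ wordProd [2, 1] := by decide
  have c2 : ∀ a b : Fin 3, wordProd ([a, b] : List (Fin 3)) = wordProd [2, 1] →
      ([a, b] : List (Fin 3)) = [2, 1] := by decide
  match word, hlen, h1 with
  | [], _, h1 => exact absurd h1 (by decide)
  | [a], _, h1 => exact absurd h1 (c1 a)
  | [a, b], _, h1 => exact c2 a b h1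
  | a :: b :: c :: t, hlen, _ => simp at hlen

lemma isReducedWord_21 :
    IsReducedWord (wordProd ([2, 1] : List (Fin 3))) ([2, 1] : List (Fin 3)) := by
  refine ⟨rfl, ?_⟩
  intro word' h
  have c0 : wordProd ([] : List (Fin 3)) ≠ wordProd [2, 1] := by decide
  have c1 : ∀ a : Fin 3, wordProd ([a] : List (Fin 3)) ≠ wordProd [2, 1] := by decide
  match word', h with
  | [], h => exact absurd h c0
  | [a], h => exact absurd h (c1 a)
  | a :: b :: t, _ => simp

end Example

/-- **Main theorem.**  There are `n = m + 1`, a partition `lam` with at most `n` parts and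
`w ∈ S_n` such that the Demazure crystal `B_{w,lam}` (computed from any reduced word of `w`) is
isomorphic to no crystal of flagged skew tableaux: here the skew shape `κ / μ` and the flag `b` are
arbitrary; in particular no nondecreasing flag works. -/
theorem result :
    ∃ (m : ℕ) (lam : YoungDiagram) (w : Equiv.Perm (Fin (m + 1))),
      lam.colLen 0 ≤ m + 1 ∧
      (∃ word : List (Fin m), IsReducedWord w word) ∧
      ∀ word : List (Fin m), IsReducedWord w word →
        ∀ (κ μ : YoungDiagram) (b : ℕ → ℕ),
          ¬ IsIsomorphic (demazureCrystal m lam word) (flaggedCrystal m κ μ b) := by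
  refine ⟨3, lam, wordProd [2, 1], by rw [colLen_lam]; norm_num, ⟨_, isReducedWord_21⟩, ?_⟩
  intro word hword κ μ b
  rw [reduced_unique word hword]
  exact not_iso κ μ b

end Pool.Agent.Results.MP_5741ae_al.NotFlagged
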